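import Pool.Agent.H31.LV.Basic
import Pool.Agent.H31.LV.Targets

/-!
# Board lvp_modules, row wWT: the leading coefficient (helper12)
-/

set_option autoImplicit false

namespace Pool.Agent.H12.LVP

open Finset Pool.Agent.H24.CL Pool.Agent.H24.LV Pool.Agent.H31.LV

/-- the statement with natural exponents -/
def WTn (d : ℕ) : Prop :=
  ∃ (K : ℝ) (a : ℕ), 1 ≤ K ∧ ∀ (N A B : ℕ) (c : ℕ → ℝ) (δ : ℝ), 1 ≤ N → A ≤ B →
    B ≤ A + N → 0 < δ → δ ≤ 1 → δ * N ≤ ‖∑ n ∈ Ico A B, ee (pl d c n)‖ →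
    ∃ q : ℕ, 1 ≤ q ∧ (q : ℝ) ≤ K * (δ⁻¹) ^ a ∧
      ∃ m : ℤ, |q * c (d - 1) - m| ≤ K * (δ⁻¹) ^ a / (N : ℝ) ^ d

theorem WTn_one (hGE : W_GE) : WTn 1 := by
  refine ⟨1, 1, le_rfl, ?_⟩
  intro N A B c δ hN hAB hB hδ hδ1 hs
  refine ⟨1, le_rfl, ?_, round (c 0), ?_⟩
  · rw [Nat.cast_one, one_mul, pow_one]
    exact (one_le_inv₀ hδ).mpr hδ1
  · have h1 := hGE A B (c 0)
    have h2 : ∑ n ∈ Ico A B, ee (pl 1 c n) = ∑ n ∈ Ico A B, ee (c 0 * n) := by
      apply Finset.sum_congr rfl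
      intro n _
      congr 1
      simp [pl]
    rw [h2] at hs
    have hN' : (0 : ℝ) < N := by exact_mod_cast hN
    simp only [Nat.cast_one, one_mul, pow_one, Nat.sub_self]
    rw [le_div_iff₀ hN', inv_eq_one_div, le_div_iff₀ hδ]
    have h3 : 0 ≤ |c 0 - round (c 0)| := abs_nonneg _
    nlinarith [mul_le_mul_of_nonneg_right hs h3]

theorem dif_lead (d h : ℕ) (hd : 1 ≤ d) (c : ℕ → ℝ) :
    dif (d + 1) h c (d - 1) = (d + 1) * h * c d := by
  unfold dif
  have e : d - 1 + 1 = d := by omega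
  rw [e, Finset.sum_Ico_succ_top (le_refl d), Finset.Ico_self, Finset.sum_empty, zero_add]
  have e2 : d - (d - 1) = 1 := by omega
  rw [e2, Nat.choose_succ_self_right, pow_one]
  push_cast
  ring

theorem WTn_succ (hDI : W_DI) (hVL : W_VL) (d : ℕ) (hd : 1 ≤ d) (ih : WTn d) : WTn (d + 1) := by
  obtain ⟨K, a, hK, ih⟩ := ih
  have hK0 : 0 < K := by linarith
  refine ⟨(256 * K ^ 2 * 16 ^ a) ^ (d + 1) * (d + 1), (4 * a + 2) * (d + 1), ?_, ?_⟩
  · have h1 : 1 ≤ 256 * K ^ 2 * 16 ^ a := by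
      have h2 : (1 : ℝ) ≤ 16 ^ a := one_le_pow₀ (by norm_num)
      have h3 : 1 ≤ K ^ 2 := one_le_pow₀ hK
      nlinarith
    have h4 : (1 : ℝ) ≤ (256 * K ^ 2 * 16 ^ a) ^ (d + 1) := one_le_pow₀ h1
    have h5 : (1 : ℝ) ≤ (d : ℝ) + 1 := by
      have : (0 : ℝ) ≤ d := Nat.cast_nonneg _
      linarith
    nlinarith
  intro N A B c δ hN hAB hB hδ hδ1 hs
  have hN0 : (0 : ℝ) < N := by exact_mod_cast hN
  have hN1 : (1 : ℝ) ≤ N := by exact_mod_cast hN
  have hd1 : (1 : ℝ) ≤ (d : ℝ) + 1 := by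
    have : (0 : ℝ) ≤ d := Nat.cast_nonneg _
    linarith
  -- parameters
  set δ1 : ℝ := δ ^ 2 / 4 with hδ1d
  have hδ1p : 0 < δ1 := by positivity
  have hδ1l : δ1 ≤ 1 := by
    have : δ ^ 2 ≤ 1 := pow_le_one₀ hδ.le hδ1
    rw [hδ1d]
    linarith
  set Q : ℝ := K * (δ1⁻¹) ^ a with hQ
  have hQ1 : 1 ≤ Q := by
    have h2 : (1 : ℝ) ≤ (δ1⁻¹) ^ a := one_le_pow₀ ((one_le_inv₀ hδ1p).mpr hδ1l)
    rw [hQ]
    nlinarith
  have hQ0 : 0 < Q := by linarith
  set L : ℝ := 64 * Q ^ 2 / δ1 with hL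
  have hLeq : L ^ (d + 1) * (d + 1) =
      (256 * K ^ 2 * 16 ^ a) ^ (d + 1) * (d + 1) * (δ⁻¹) ^ ((4 * a + 2) * (d + 1)) := by
    have h1 : L = (256 * K ^ 2 * 16 ^ a) * (δ⁻¹) ^ (4 * a + 2) := by
      have e1 : δ1⁻¹ = 4 * (δ⁻¹) ^ 2 := by
        rw [hδ1d]
        field_simp
      rw [hL, div_eq_mul_inv, hQ, e1]
      have e2 : (16 : ℝ) ^ a = (4 ^ a) ^ 2 := by
        rw [← pow_mul, mul_comm, pow_mul]
        norm_num
      rw [e2, pow_add, mul_comm 4 a, pow_mul _ a 4]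
      ring
    rw [h1, mul_pow, ← pow_mul]
    ring
  rw [← hLeq]
  have hL1 : 1 ≤ L := by
    rw [hL, le_div_iff₀ hδ1p]
    nlinarith
  have hL0 : 0 < L := by linarith
  have hLL : L ≤ L ^ (d + 1) := le_self_pow₀ hL1 (by omega)
  -- the good shifts
  have hcard := hDI N A B (fun n => ee (pl (d + 1) c n)) δ hN hAB hB hδ hδ1
    (fun n => (norm_ee _).le) hs
  rw [← hδ1d] at hcard
  set G : Finset ℕ := (range N).filter fun h => δ1 * N ≤
      ‖∑ n ∈ Ico A (B - h), ee (pl (d + 1) c ((n + h : ℕ) : ℝ)) *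
        (starRingEnd ℂ) (ee (pl (d + 1) c n))‖ with hG
  have key : ∀ h ∈ G, ∃ q : ℕ, 1 ≤ q ∧ (q : ℝ) ≤ Q ∧
      ∃ m : ℤ, |(q : ℝ) * ((d + 1) * h * c d) - m| ≤ Q / (N : ℝ) ^ d := by
    intro h hh
    rw [hG, Finset.mem_filter] at hh
    obtain ⟨hhN, hh⟩ := hh
    have hterm : ∀ n : ℕ, ee (pl (d + 1) c ((n + h : ℕ) : ℝ)) *
        (starRingEnd ℂ) (ee (pl (d + 1) c n)) =
        ee (pl (d + 1) c h) * ee (pl d (dif (d + 1) h c) n) := by
      intro n
      rw [← ee_sub, ← ee_add]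
      congr 1
      have := pl_dif (d + 1) h c (n : ℝ)
      rw [Nat.add_sub_cancel] at this
      rw [← this]
      push_cast
      rfl
    have hsum : ‖∑ n ∈ Ico A (B - h), ee (pl (d + 1) c ((n + h : ℕ) : ℝ)) *
        (starRingEnd ℂ) (ee (pl (d + 1) c n))‖ =
        ‖∑ n ∈ Ico A (B - h), ee (pl d (dif (d + 1) h c) n)‖ := by
      rw [Finset.sum_congr rfl (fun n _ => hterm n), ← Finset.mul_sum, norm_mul, norm_ee, one_mul]
    rw [hsum] at hh
    by_cases hAh : A ≤ B - h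
    · obtain ⟨q, hq1, hq2, m, hm⟩ := ih N A (B - h) (dif (d + 1) h c) δ1 hN hAh (by omega)
        hδ1p hδ1l hh
      refine ⟨q, hq1, hq2, m, ?_⟩
      rw [dif_lead d h hd c] at hm
      exact hm
    · exfalso
      rw [Finset.Ico_eq_empty (by omega), Finset.sum_empty, norm_zero] at hh
      have : 0 < δ1 * N := by positivity
      linarith
  choose! qf hq1 hq2 hq3 using key
  -- pigeonhole
  obtain ⟨q', hq't, hq'c⟩ : ∃ y ∈ Finset.Icc 1 ⌊Q⌋₊, δ1 / Q * N ≤
      ((G.filter fun x => qf x = y).card : ℝ) := by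
    apply Finset.exists_le_card_fiber_of_nsmul_le_card_of_maps_to
    · intro h hh
      rw [Finset.mem_Icc]
      exact ⟨hq1 h hh, Nat.le_floor (hq2 h hh)⟩
    · rw [Finset.nonempty_Icc]
      exact Nat.le_floor (by simpa using hQ1)
    · rw [Nat.card_Icc, Nat.add_sub_cancel, nsmul_eq_mul]
      refine le_trans ?_ hcard
      have h1 : (⌊Q⌋₊ : ℝ) ≤ Q := Nat.floor_le hQ0.le
      have h2 : 0 ≤ δ1 / Q * N := by positivity
      have h3 : (⌊Q⌋₊ : ℝ) * (δ1 / Q * N) ≤ Q * (δ1 / Q * N) :=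
        mul_le_mul_of_nonneg_right h1 h2
      have h4 : Q * (δ1 / Q * N) = δ1 * N := by
        field_simp
      linarith
  rw [Finset.mem_Icc] at hq't
  have hq'1 : 1 ≤ q' := hq't.1
  have hq'Q : (q' : ℝ) ≤ Q := le_trans (by exact_mod_cast hq't.2) (Nat.floor_le hQ0.le)
  set δ' : ℝ := δ1 / Q with hδ'
  have hδ'0 : 0 < δ' := by positivity
  have hδ'1 : δ' ≤ 1 := by
    rw [hδ', div_le_one hQ0]
    linarith
  have hLδ : L * δ' = 64 * Q := by
    rw [hL, hδ']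
    field_simp
  set ε : ℝ := Q / (N : ℝ) ^ d with hε
  have hε0 : 0 ≤ ε := by positivity
  by_cases hcase : ε ≤ δ' / 64 ∧ 4 ≤ δ' * N
  · obtain ⟨hc1, hc2⟩ := hcase
    obtain ⟨q'', hr1, hr2, m, hm⟩ := hVL (q' * ((d + 1) * c d)) ε δ' N
      (G.filter fun x => qf x = q') hδ'0 hδ'1 hε0 hc1 hc2
      ((Finset.filter_subset _ _).trans (by rw [hG]; exact Finset.filter_subset _ _)) hq'c (by
        intro h hh
        rw [Finset.mem_filter] at hh
        obtain ⟨m, hm⟩ := hq3 h hh.1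
        refine ⟨m, ?_⟩
        rw [hh.2] at hm
        convert hm using 2
        ring)
    refine ⟨q'' * q' * (d + 1), ?_, ?_, m, ?_⟩
    · exact Nat.mul_pos (Nat.mul_pos hr1 hq'1) (Nat.succ_pos d)
    · push_cast
      apply mul_le_mul_of_nonneg_right _ (by linarith)
      refine le_trans ?_ hLL
      have h1 : (q'' : ℝ) * q' ≤ 4 / δ' * Q := mul_le_mul hr2 hq'Q (by positivity) (by positivity)
      refine h1.trans ?_
      rw [hδ', hL]
      have : 4 / (δ1 / Q) * Q = 4 * Q ^ 2 / δ1 := by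
        field_simp
      rw [this]
      apply div_le_div_of_nonneg_right _ hδ1p.le
      nlinarith [sq_nonneg Q]
    · rw [Nat.add_sub_cancel]
      have h1 : ((q'' * q' * (d + 1) : ℕ) : ℝ) * c d - m = q'' * (q' * ((d + 1) * c d)) - m := by
        push_cast
        ring
      rw [h1]
      refine hm.trans ?_
      have h2 : 8 * ε / (δ' * N) = 8 * Q ^ 2 / δ1 / (N : ℝ) ^ (d + 1) := by
        have hNd : (0 : ℝ) < (N : ℝ) ^ d := by positivity
        rw [hε, hδ', pow_succ (N : ℝ) d]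
        field_simp
      rw [h2]
      apply div_le_div_of_nonneg_right _ (by positivity)
      have h3 : 8 * Q ^ 2 / δ1 ≤ L := by
        rw [hL]
        apply div_le_div_of_nonneg_right _ hδ1p.le
        nlinarith [sq_nonneg Q]
      have h4 : L ^ (d + 1) ≤ L ^ (d + 1) * (d + 1) := le_mul_of_one_le_right (by positivity) hd1
      linarith
  · have hNL : (N : ℝ) ≤ L := by
      by_cases h1 : ε ≤ δ' / 64
      · have h2 : δ' * N < 4 := by
          by_contra h3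
          exact hcase ⟨h1, not_lt.mp h3⟩
        by_contra h4
        have h5 : L < N := not_le.mp h4
        have h6 : L * δ' < N * δ' := mul_lt_mul_of_pos_right h5 hδ'0
        rw [hLδ] at h6
        linarith
      · have h2 : δ' / 64 < ε := not_le.mp h1
        rw [hε, lt_div_iff₀ (by positivity)] at h2
        have h3 : (N : ℝ) ≤ (N : ℝ) ^ d := le_self_pow₀ hN1 (by omega)
        by_contra h4
        have h5 : L < N := not_le.mp h4
        have h6 : L * δ' < N * δ' := mul_lt_mul_of_pos_right h5 hδ'0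
        rw [hLδ] at h6
        have h7 : (N : ℝ) * δ' ≤ (N : ℝ) ^ d * δ' := mul_le_mul_of_nonneg_right h3 hδ'0.le
        linarith
    refine ⟨1, le_rfl, ?_, round (c d), ?_⟩
    · rw [Nat.cast_one]
      have h1 : 1 ≤ L ^ (d + 1) := one_le_pow₀ hL1
      nlinarith
    · rw [Nat.add_sub_cancel, Nat.cast_one, one_mul]
      have h1 : |c d - round (c d)| ≤ 1 / 2 := abs_sub_round (c d)
      refine h1.trans ?_
      rw [le_div_iff₀ (by positivity)]
      have h2 : (N : ℝ) ^ (d + 1) ≤ L ^ (d + 1) := pow_le_pow_left₀ hN0.le hNL _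
      have h3 : 0 < L ^ (d + 1) := by positivity
      nlinarith

theorem pf_wWT (hGE : W_GE) (hDI : W_DI) (hVL : W_VL) : W_WT := by
  intro d hd
  have h : WTn d := by
    induction d, hd using Nat.le_induction with
    | base => exact WTn_one hGE
    | succ d hd ih => exact WTn_succ hDI hVL d hd ih
  obtain ⟨K, a, hK, h⟩ := h
  refine ⟨max K a, le_trans hK (le_max_left _ _), ?_⟩
  intro N A B c δ hN hAB hB hδ hδ1 hs
  obtain ⟨q, hq1, hq2, m, hm⟩ := h N A B c δ hN hAB hB hδ hδ1 hs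
  have hle : K * (δ⁻¹) ^ a ≤ max K a * δ ^ (-(max K a)) := by
    apply mul_le_mul (le_max_left _ _) _ (by positivity)
      (le_trans (by linarith) (le_max_left K (a : ℝ)))
    have h1 : (δ⁻¹) ^ a = δ ^ (-(a : ℝ)) := by
      rw [Real.rpow_neg hδ.le, Real.rpow_natCast, inv_pow]
    rw [h1]
    apply Real.rpow_le_rpow_of_exponent_ge hδ hδ1
    have := le_max_right K (a : ℝ)
    linarith
  refine ⟨q, hq1, hq2.trans hle, m, hm.trans ?_⟩
  exact div_le_div_of_nonneg_right hle (by positivity)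

end Pool.Agent.H12.LVP
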